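import Pool.Agent.T9h15.RO.Tr

set_option autoImplicit false

/-! Unilateral formations over the integral group ring of a group acting on a tree are trivial in
the odd-dimensional L-groups with free modules, provided that there is no element of order two and
that the common stabilisers of two distant vertices which are interchanged by an element of the
group are locally free. For groups without elements of order two this contains the vanishing of
Cappell's groups `UNil_{2k+1}` for square root closed subgroups, where no two vertices are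
interchanged. -/

namespace Pool.Agent.Results.MP_98022b_gt.OddReversibleUnilVanishing

open Matrix

section defs

variable {Γ : Type} [Group Γ]

/-- the adjoint (conjugate transpose) of a matrix over `ℤΓ`, for the involution `g ↦ g⁻¹` -/
noncomputable def adjoint {κ μ : Type} (A : Matrix κ μ (MonoidAlgebra ℤ Γ)) :
    Matrix μ κ (MonoidAlgebra ℤ Γ) :=
  Matrix.of fun j i => MonoidAlgebra.mapDomain (fun g => g⁻¹) (A i j)

/-- the group generated by the elementary isometries of the hyperbolic `δ`-quadratic form with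
matrix `(0 1; 0 0)` on `K ⊕ K`: the matrices `(1 0; χ - δχ* 1)` and `(1 χ - δχ*; 0 1)`, and
`(E 0; 0 (E⁻¹)*)` for invertible `E` -/
noncomputable def elementaryGroup (Γ : Type) [Group Γ] (δ : ℤ) (K : Type) [Fintype K]
    [DecidableEq K] : Subgroup (Matrix (K ⊕ K) (K ⊕ K) (MonoidAlgebra ℤ Γ))ˣ :=
  Subgroup.closure
    {u | (∃ χ : Matrix K K (MonoidAlgebra ℤ Γ), u.val = fromBlocks 1 0 (χ - δ • adjoint χ) 1) ∨
      (∃ χ : Matrix K K (MonoidAlgebra ℤ Γ), u.val = fromBlocks 1 (χ - δ • adjoint χ) 0 1) ∨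
      ∃ E : (Matrix K K (MonoidAlgebra ℤ Γ))ˣ, u.val = fromBlocks E.val 0 0 (adjoint (E⁻¹).val)}

/-- the formation whose second lagrangian is spanned by the rows of `(γ μ)` is zero in
`L^h_{2k+1}(ℤΓ)`, with `δ = (-1)^k`: after adding a trivial formation, the second lagrangian is
carried to the first one by an element of the elementary group -/
def ZeroInOddL {J : Type} [Fintype J] [DecidableEq J] (δ : ℤ)
    (γ μ : Matrix J J (MonoidAlgebra ℤ Γ)) : Prop :=
  ∃ (a : ℕ) (u : (Matrix ((J ⊕ Fin a) ⊕ (J ⊕ Fin a)) ((J ⊕ Fin a) ⊕ (J ⊕ Fin a))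
      (MonoidAlgebra ℤ Γ))ˣ) (E : (Matrix (J ⊕ Fin a) (J ⊕ Fin a) (MonoidAlgebra ℤ Γ))ˣ),
    u ∈ elementaryGroup Γ δ (J ⊕ Fin a) ∧
    fromCols (fromBlocks γ 0 0 1 : Matrix (J ⊕ Fin a) (J ⊕ Fin a) (MonoidAlgebra ℤ Γ))
      (fromBlocks μ 0 0 0) * u.val = fromCols E.val 0

/-- every finitely generated subgroup of `H` is free -/
def LocallyFree (H : Subgroup Γ) : Prop :=
  ∀ F : Subgroup Γ, F ≤ H → F.FG → IsFreeGroup F

/-- the first component of the unilateral formation of `(d, α, β)` -/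
noncomputable def unilateralFst {κ₁ κ₀ : Type} [DecidableEq κ₁] [DecidableEq κ₀] (δ : ℤ)
    (α : Matrix κ₀ κ₁ (MonoidAlgebra ℤ Γ)) (β : Matrix κ₁ κ₀ (MonoidAlgebra ℤ Γ)) :
    Matrix (κ₁ ⊕ κ₀) (κ₁ ⊕ κ₀) (MonoidAlgebra ℤ Γ) := fromBlocks 1 β α (-(δ • 1))

/-- the second component of the unilateral formation of `(d, α, β)` -/
noncomputable def unilateralSnd {κ₁ κ₀ : Type} (d : Matrix κ₁ κ₀ (MonoidAlgebra ℤ Γ)) :
    Matrix (κ₁ ⊕ κ₀) (κ₁ ⊕ κ₀) (MonoidAlgebra ℤ Γ) := fromBlocks 0 d (adjoint d) 0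

end defs

section aux

open Pool.Agent.T9h15.RO

variable {Γ : Type} [Group Γ]

theorem zero_of_PZ {J : Type} [Fintype J] [DecidableEq J] {δ : ℤ}
    {γ μ : Matrix J J (MonoidAlgebra ℤ Γ)} (h : PZH Γ δ J γ μ) : ZeroInOddL δ γ μ := by
  obtain ⟨a, u, hu, E, h1⟩ := h.fin
  exact ⟨a, u, E, hu, h1⟩

end aux

/-- Let `Γ` be a group without elements of order two, acting on a tree `T` such that, for some `m`,
the group `Γ_x ∩ Γ_y` is locally free for all vertices `x, y` at distance at least `m` which are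
interchanged by some element of `Γ`. Let `(u₁ k, w₁ k)`, `k ∈ κ₁`, and `(u₀ k, w₀ k)`, `k ∈ κ₀`, be
finite families of pairs of adjacent vertices, let `d` be a matrix over `ℤΓ` such that each `g` in
the support of the entry of `d` at `(k, l)` sends `(u₀ l, w₀ l)` to `(u₁ k, w₁ k)`, let `α` be a
matrix such that each `g` in the support of the entry at `(k, l)` sends `u₁ l` to `u₀ k` but not
`w₁ l` to `w₀ k`, and let `β` be a matrix such that each `g` in the support of the entry at `(k, l)`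
sends `w₀ l` to `w₁ k` but not `u₀ l` to `u₁ k`. Assume that `α d` and `β d*` are `(-δ)`-symmetric
and that the rows of the matrix `(γ μ)` with `γ = (1 β; α -δ)` and `μ = (0 d; d* 0)` are a basis of
a direct summand. Then the formation with second lagrangian spanned by the rows of `(γ μ)` is zero
in `L^h_{2k+1}(ℤΓ)`, `δ = (-1)^k`. -/
theorem result (Γ : Type) [Group Γ] (hΓ : ∀ g : Γ, g * g = 1 → g = 1)
    (V : Type) [MulAction Γ V] (T : SimpleGraph V) (hT : T.IsTree)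
    (hadj : ∀ (g : Γ) (x y : V), T.Adj x y → T.Adj (g • x) (g • y))
    (m : ℕ) (hm : ∀ (x y : V) (g : Γ), m ≤ T.dist x y → g • x = y → g • y = x →
      LocallyFree (MulAction.stabilizer Γ x ⊓ MulAction.stabilizer Γ y))
    (δ : ℤ) (hδ : δ = 1 ∨ δ = -1)
    (κ₁ κ₀ : Type) [Fintype κ₁] [DecidableEq κ₁] [Fintype κ₀] [DecidableEq κ₀]
    (u₁ w₁ : κ₁ → V) (u₀ w₀ : κ₀ → V) (h₁ : ∀ k, T.Adj (u₁ k) (w₁ k))
    (h₀ : ∀ k, T.Adj (u₀ k) (w₀ k))
    (d : Matrix κ₁ κ₀ (MonoidAlgebra ℤ Γ)) (α : Matrix κ₀ κ₁ (MonoidAlgebra ℤ Γ))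
    (β : Matrix κ₁ κ₀ (MonoidAlgebra ℤ Γ))
    (hd : ∀ k l g, (d k l).coeff g ≠ 0 → g • u₀ l = u₁ k ∧ g • w₀ l = w₁ k)
    (hα : ∀ k l g, (α k l).coeff g ≠ 0 → g • u₁ l = u₀ k ∧ g • w₁ l ≠ w₀ k)
    (hβ : ∀ k l g, (β k l).coeff g ≠ 0 → g • w₀ l = w₁ k ∧ g • u₀ l ≠ u₁ k)
    (hαd : adjoint (α * d) = -(δ • (α * d)))
    (hβd : adjoint (β * adjoint d) = -(δ • (β * adjoint d)))
    (hsplit : ∃ B : Matrix ((κ₁ ⊕ κ₀) ⊕ (κ₁ ⊕ κ₀)) (κ₁ ⊕ κ₀) (MonoidAlgebra ℤ Γ),
      fromCols (unilateralFst δ α β) (unilateralSnd d) * B = 1) :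
    ZeroInOddL δ (unilateralFst δ α β) (unilateralSnd d) := by
  have hδδ : δ * δ = 1 := by rcases hδ with rfl | rfl <;> norm_num
  apply zero_of_PZ
  refine Pool.Agent.T9h15.RO.odd_mainH (T := T) hT hadj ?_ m ?_ hδδ (fun k => (u₁ k, w₁ k))
    (fun k => (u₀ k, w₀ k)) h₀ d α β ?_ ?_ ?_ ?_ ?_ ?_ _ (Pool.Agent.T9h15.RO.good_PZH Γ δ)
  · intro g hg
    apply hΓ
    nth_rewrite 1 [hg]
    exact inv_mul_cancel g
  · intro x y g hxy h1 h2 F hF hfg
    have := hm x y g hxy h1 h2 F hF hfg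
    exact Pool.Agent.T9h15.UO.KQ.of_free F
  · intro k l g hg
    obtain ⟨h3, h4⟩ := hd k l g hg
    exact Prod.ext h3.symm h4.symm
  · intro k l g hg
    obtain ⟨h3, h4⟩ := hα k l g hg
    exact ⟨h₀ k, hadj g _ _ (h₁ l), h3.symm, fun h => h4 h.symm⟩
  · intro k l g hg
    obtain ⟨h3, h4⟩ := hβ k l g hg
    exact ⟨h₁ k, hadj g _ _ (h₀ l), h3.symm, fun h => h4 h.symm⟩
  · change α * d + δ • adjoint (α * d) = 0
    rw [hαd, smul_neg, smul_smul, hδδ, one_smul, add_neg_cancel]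
  · change β * adjoint d + δ • adjoint (β * adjoint d) = 0
    rw [hβd, smul_neg, smul_smul, hδδ, one_smul, add_neg_cancel]
  · obtain ⟨B, hB⟩ := hsplit
    refine ⟨B.toRows₁, B.toRows₂, ?_⟩
    rw [← fromRows_toRows B, fromCols_mul_fromRows] at hB
    exact hB

end Pool.Agent.Results.MP_98022b_gt.OddReversibleUnilVanishing
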