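import Pool.Agent.T9h15.RO.Ls
import Pool.Agent.T9h15.UO.Gd

set_option autoImplicit false

/-! Unilateral formations over the integral group ring of a group acting on a tree are trivial in
the odd-dimensional L-groups, provided that the pointwise stabilisers of long paths are locally free
and that there is no element of order two: Cappell's groups `UNil_{2k+1}` vanish in this case. -/

namespace Pool.Agent.Results.MP_98022b_gt.OddUnilVanishing

open Matrix

section defs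

variable {Γ : Type} [Group Γ]

/-- the adjoint (conjugate transpose) of a matrix over `ℤΓ`, for the involution `g ↦ g⁻¹` -/
noncomputable def adjoint {κ μ : Type} (A : Matrix κ μ (MonoidAlgebra ℤ Γ)) :
    Matrix μ κ (MonoidAlgebra ℤ Γ) :=
  Matrix.of fun j i => MonoidAlgebra.mapDomain (fun g => g⁻¹) (A i j)

/-- the square matrix `x` over `ℤΓ` is zero in the Whitehead group: stabilised by an identity block,
it is `± g` on one diagonal entry times a product of commutators of invertible matrices -/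
def ZeroInWh {κ : Type} [Fintype κ] [DecidableEq κ]
    (x : Matrix κ κ (MonoidAlgebra ℤ Γ)) : Prop :=
  ∃ (m : ℕ) (g : Γ) (ε : ℤˣ)
    (C : (Matrix (κ ⊕ Fin (m + 1)) (κ ⊕ Fin (m + 1)) (MonoidAlgebra ℤ Γ))ˣ),
    C ∈ commutator (Matrix (κ ⊕ Fin (m + 1)) (κ ⊕ Fin (m + 1)) (MonoidAlgebra ℤ Γ))ˣ ∧
    Matrix.fromBlocks x 0 0 (1 : Matrix (Fin (m + 1)) (Fin (m + 1)) (MonoidAlgebra ℤ Γ)) =
      Matrix.diagonal (fun i : κ ⊕ Fin (m + 1) =>
          if i = Sum.inr (0 : Fin (m + 1)) then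
            (MonoidAlgebra.single g ((ε : ℤ)) : MonoidAlgebra ℤ Γ) else 1) *
        (↑C : Matrix (κ ⊕ Fin (m + 1)) (κ ⊕ Fin (m + 1)) (MonoidAlgebra ℤ Γ))

/-- the group generated by the elementary simple isometries of the hyperbolic `δ`-quadratic form
with matrix `(0 1; 0 0)` on `K ⊕ K`: the matrices `(1 0; χ - δχ* 1)` and `(1 χ - δχ*; 0 1)`, and
`(E 0; 0 (E⁻¹)*)` for invertible `E` which are zero in the Whitehead group -/
noncomputable def elementaryGroup (Γ : Type) [Group Γ] (δ : ℤ) (K : Type) [Fintype K]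
    [DecidableEq K] : Subgroup (Matrix (K ⊕ K) (K ⊕ K) (MonoidAlgebra ℤ Γ))ˣ :=
  Subgroup.closure
    {u | (∃ χ : Matrix K K (MonoidAlgebra ℤ Γ), u.val = fromBlocks 1 0 (χ - δ • adjoint χ) 1) ∨
      (∃ χ : Matrix K K (MonoidAlgebra ℤ Γ), u.val = fromBlocks 1 (χ - δ • adjoint χ) 0 1) ∨
      ∃ E : (Matrix K K (MonoidAlgebra ℤ Γ))ˣ, ZeroInWh E.val ∧
        u.val = fromBlocks E.val 0 0 (adjoint (E⁻¹).val)}

/-- the formation whose second lagrangian is spanned by the rows of `(γ μ)` is zero in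
`L^s_{2k+1}(ℤΓ)`, with `δ = (-1)^k`: after adding a trivial formation, the second lagrangian is
carried to the first one by an element of the elementary group, with a simple change of basis -/
def ZeroInOddL {J : Type} [Fintype J] [DecidableEq J] (δ : ℤ)
    (γ μ : Matrix J J (MonoidAlgebra ℤ Γ)) : Prop :=
  ∃ (a : ℕ) (u : (Matrix ((J ⊕ Fin a) ⊕ (J ⊕ Fin a)) ((J ⊕ Fin a) ⊕ (J ⊕ Fin a))
      (MonoidAlgebra ℤ Γ))ˣ) (E : (Matrix (J ⊕ Fin a) (J ⊕ Fin a) (MonoidAlgebra ℤ Γ))ˣ),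
    u ∈ elementaryGroup Γ δ (J ⊕ Fin a) ∧ ZeroInWh E.val ∧
    fromCols (fromBlocks γ 0 0 1 : Matrix (J ⊕ Fin a) (J ⊕ Fin a) (MonoidAlgebra ℤ Γ))
      (fromBlocks μ 0 0 0) * u.val = fromCols E.val 0

/-- every finitely generated subgroup of `H` is free -/
def LocallyFree (H : Subgroup Γ) : Prop :=
  ∀ F : Subgroup Γ, F ≤ H → F.FG → IsFreeGroup F

/-- the first component of the unilateral formation of `(d, α, β)` -/
noncomputable def unilateralFst {κ₁ κ₀ : Type} [DecidableEq κ₁] [DecidableEq κ₀] (δ : ℤ)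
    (α : Matrix κ₀ κ₁ (MonoidAlgebra ℤ Γ)) (β : Matrix κ₁ κ₀ (MonoidAlgebra ℤ Γ)) :
    Matrix (κ₁ ⊕ κ₀) (κ₁ ⊕ κ₀) (MonoidAlgebra ℤ Γ) := fromBlocks 1 β α (-(δ • 1))

/-- the second component of the unilateral formation of `(d, α, β)` -/
noncomputable def unilateralSnd {κ₁ κ₀ : Type} (d : Matrix κ₁ κ₀ (MonoidAlgebra ℤ Γ)) :
    Matrix (κ₁ ⊕ κ₀) (κ₁ ⊕ κ₀) (MonoidAlgebra ℤ Γ) := fromBlocks 0 d (adjoint d) 0

end defs

section aux

open TH57.Thr TH6.LF TH6.CX Pool.Agent.T9h15.UO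

variable {Γ : Type} [Group Γ]

theorem eg_le (δ : ℤ) (K : Type) [Fintype K] [DecidableEq K] :
    EG Γ δ K ≤ elementaryGroup Γ δ K := by
  refine Subgroup.closure_mono ?_
  rintro u (h | h | ⟨E, hE, h⟩)
  · exact Or.inl h
  · exact Or.inr (Or.inl h)
  · exact Or.inr (Or.inr ⟨E, TT_explicit E hE, h⟩)

theorem zero_of_PZ {J : Type} [Fintype J] [DecidableEq J] {δ : ℤ}
    {γ μ : Matrix J J (MonoidAlgebra ℤ Γ)} (h : PZ Γ δ J γ μ) : ZeroInOddL δ γ μ := by
  obtain ⟨a, u, hu, E, hE, h1⟩ := h.fin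
  exact ⟨a, u, E, eg_le δ _ hu, TT_explicit E hE, h1⟩

end aux

/-- Let `Γ` be a group without elements of order two, acting on a tree `T` such that, for some `m`,
the pointwise stabilisers of any two vertices at distance at least `m` are locally free. Let
`(u₁ k, w₁ k)`, `k ∈ κ₁`, and `(u₀ k, w₀ k)`, `k ∈ κ₀`, be finite families of pairs of adjacent vertices, let `d` be a matrix over `ℤΓ` such that each `g` in the
support of the entry of `d` at `(k, l)` sends `(u₀ l, w₀ l)` to `(u₁ k, w₁ k)`, let `α` be a matrix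
such that each `g` in the support of the entry at `(k, l)` sends `u₁ l` to `u₀ k` but not `w₁ l` to
`w₀ k`, and let `β` be a matrix such that each `g` in the support of the entry at `(k, l)` sends
`w₀ l` to `w₁ k` but not `u₀ l` to `u₁ k`. Assume that `α d` and `β d*` are `(-δ)`-symmetric and
that the rows of the matrix `(γ μ)` with `γ = (1 β; α -δ)` and `μ = (0 d; d* 0)` are a basis of a
direct summand. Then the formation with second lagrangian spanned by the rows of `(γ μ)` is zero in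
`L^s_{2k+1}(ℤΓ)`, `δ = (-1)^k`. -/
theorem result (Γ : Type) [Group Γ] (hΓ : ∀ g : Γ, g * g = 1 → g = 1)
    (V : Type) [MulAction Γ V] (T : SimpleGraph V) (hT : T.IsTree)
    (hadj : ∀ (g : Γ) (x y : V), T.Adj x y → T.Adj (g • x) (g • y))
    (m : ℕ) (hm : ∀ x y : V, m ≤ T.dist x y →
      LocallyFree (MulAction.stabilizer Γ x ⊓ MulAction.stabilizer Γ y))
    (δ : ℤ) (hδ : δ = 1 ∨ δ = -1)
    (κ₁ κ₀ : Type) [Fintype κ₁] [DecidableEq κ₁] [Fintype κ₀] [DecidableEq κ₀]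
    (u₁ w₁ : κ₁ → V) (u₀ w₀ : κ₀ → V) (h₁ : ∀ k, T.Adj (u₁ k) (w₁ k))
    (h₀ : ∀ k, T.Adj (u₀ k) (w₀ k))
    (d : Matrix κ₁ κ₀ (MonoidAlgebra ℤ Γ)) (α : Matrix κ₀ κ₁ (MonoidAlgebra ℤ Γ))
    (β : Matrix κ₁ κ₀ (MonoidAlgebra ℤ Γ))
    (hd : ∀ k l g, (d k l).coeff g ≠ 0 → g • u₀ l = u₁ k ∧ g • w₀ l = w₁ k)
    (hα : ∀ k l g, (α k l).coeff g ≠ 0 → g • u₁ l = u₀ k ∧ g • w₁ l ≠ w₀ k)
    (hβ : ∀ k l g, (β k l).coeff g ≠ 0 → g • w₀ l = w₁ k ∧ g • u₀ l ≠ u₁ k)
    (hαd : adjoint (α * d) = -(δ • (α * d)))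
    (hβd : adjoint (β * adjoint d) = -(δ • (β * adjoint d)))
    (hsplit : ∃ B : Matrix ((κ₁ ⊕ κ₀) ⊕ (κ₁ ⊕ κ₀)) (κ₁ ⊕ κ₀) (MonoidAlgebra ℤ Γ),
      fromCols (unilateralFst δ α β) (unilateralSnd d) * B = 1) :
    ZeroInOddL δ (unilateralFst δ α β) (unilateralSnd d) := by
  have hδδ : δ * δ = 1 := by rcases hδ with rfl | rfl <;> norm_num
  apply zero_of_PZ
  refine Pool.Agent.T9h15.RO.odd_mainS (T := T) hT hadj ?_ m ?_ hδδ (fun k => (u₁ k, w₁ k))
    (fun k => (u₀ k, w₀ k)) h₀ d α β ?_ ?_ ?_ ?_ ?_ ?_ _ (Pool.Agent.T9h15.UO.good_PZ Γ δ)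
  · intro g hg
    apply hΓ
    nth_rewrite 1 [hg]
    exact inv_mul_cancel g
  · intro x y hxy F hF hfg
    have := hm x y hxy F hF hfg
    exact Pool.Agent.T9h15.UO.KQ.of_free F
  · intro k l g hg
    obtain ⟨h3, h4⟩ := hd k l g hg
    exact Prod.ext h3.symm h4.symm
  · intro k l g hg
    obtain ⟨h3, h4⟩ := hα k l g hg
    exact ⟨h₀ k, hadj g _ _ (h₁ l), h3.symm, fun h => h4 h.symm⟩
  · intro k l g hg
    obtain ⟨h3, h4⟩ := hβ k l g hg
    exact ⟨h₁ k, hadj g _ _ (h₀ l), h3.symm, fun h => h4 h.symm⟩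
  · change α * d + δ • adjoint (α * d) = 0
    rw [hαd, smul_neg, smul_smul, hδδ, one_smul, add_neg_cancel]
  · change β * adjoint d + δ • adjoint (β * adjoint d) = 0
    rw [hβd, smul_neg, smul_smul, hδδ, one_smul, add_neg_cancel]
  · obtain ⟨B, hB⟩ := hsplit
    refine ⟨B.toRows₁, B.toRows₂, ?_⟩
    rw [← fromRows_toRows B, fromCols_mul_fromRows] at hB
    exact hB

end Pool.Agent.Results.MP_98022b_gt.OddUnilVanishing
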