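import Pool.Agent.T9h15.RV.Tr
import Pool.Agent.T9h15.UN.Free

set_option autoImplicit false

/-! Unilateral forms over the integral group ring of a group acting on a tree are stably hyperbolic,
provided that elements of order two act trivially and that the common stabilisers of two distant
vertices which are interchanged by an element of the group are locally free. This contains the
vanishing of Cappell's groups `UNil_{2k}` for square root closed subgroups, where no two vertices
are interchanged. -/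

namespace Pool.Agent.Results.MP_98022b_gt.ReversibleUnilVanishing

open Matrix

section defs

variable {Γ : Type} [Group Γ]

/-- the adjoint (conjugate transpose) of a matrix over `ℤΓ`, for the involution `g ↦ g⁻¹` -/
noncomputable def adjoint {κ μ : Type} (A : Matrix κ μ (MonoidAlgebra ℤ Γ)) :
    Matrix μ κ (MonoidAlgebra ℤ Γ) :=
  Matrix.of fun j i => MonoidAlgebra.mapDomain (fun g => g⁻¹) (A i j)

/-- the `ε`-symmetric form `λ = ψ + εψ*` of the `ε`-quadratic form `ψ` -/
noncomputable def symmetrization {κ : Type} (ε : ℤ) (ψ : Matrix κ κ (MonoidAlgebra ℤ Γ)) :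
    Matrix κ κ (MonoidAlgebra ℤ Γ) := ψ + ε • adjoint ψ

/-- isometry of `ε`-quadratic forms (matrices modulo the matrices `χ - εχ*`) on free modules -/
def Isometric {κ : Type} [Fintype κ] [DecidableEq κ] (ε : ℤ)
    (ψ ψ' : Matrix κ κ (MonoidAlgebra ℤ Γ)) : Prop :=
  ∃ (E : (Matrix κ κ (MonoidAlgebra ℤ Γ))ˣ) (χ : Matrix κ κ (MonoidAlgebra ℤ Γ)),
    E.val * ψ * adjoint E.val = ψ' + (χ - ε • adjoint χ)

/-- the sum of `n` hyperbolic planes -/
noncomputable def hyperbolic (Γ : Type) [Group Γ] (n : ℕ) :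
    Matrix (Fin n ⊕ Fin n) (Fin n ⊕ Fin n) (MonoidAlgebra ℤ Γ) := fromBlocks 0 1 0 0

/-- the form `ψ` is zero in Wall's group `L^h_{2k}(ℤΓ)` with `ε = (-1)^k`: after adding hyperbolic
planes, it is isometric to a sum of hyperbolic planes -/
def StablyHyperbolic {κ : Type} [Fintype κ] [DecidableEq κ] (ε : ℤ)
    (ψ : Matrix κ κ (MonoidAlgebra ℤ Γ)) : Prop :=
  ∃ (a b : ℕ) (e : κ ⊕ (Fin a ⊕ Fin a) ≃ Fin b ⊕ Fin b),
    Isometric ε (fromBlocks ψ 0 0 (hyperbolic Γ a)) ((hyperbolic Γ b).submatrix e e)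

/-- every finitely generated subgroup of `H` is free -/
def LocallyFree (H : Subgroup Γ) : Prop :=
  ∀ F : Subgroup Γ, F ≤ H → F.FG → IsFreeGroup F

/-- the form `x ψ₁ x* + x z* + z ψ₂ z*` in the two vectors of variables `x` and `z` -/
noncomputable def unilateralForm {κ : Type} [DecidableEq κ] (ψ₁ ψ₂ : Matrix κ κ (MonoidAlgebra ℤ Γ)) :
    Matrix (κ ⊕ κ) (κ ⊕ κ) (MonoidAlgebra ℤ Γ) := fromBlocks ψ₁ 1 0 ψ₂

end defs

open Pool.Agent.T9h15.UN Pool.Agent.T9h15.RV in
theorem stably_of_zh {Γ : Type} [Group Γ] {κ : Type} [Fintype κ] [DecidableEq κ] {ε : ℤ}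
    {ψ : Matrix κ κ (MonoidAlgebra ℤ Γ)} (h : ZH ε ψ) : StablyHyperbolic ε ψ := by
  obtain ⟨a, b, e, E, χ, h⟩ := h
  exact ⟨a, b, e, E, χ, h⟩

/-- Let `Γ` be a group acting on a tree `T` such that the elements of order two act trivially and,
for some `m`, the group `Γ_x ∩ Γ_y` is locally free for all vertices `x, y` at distance at least
`m` which are interchanged by some element of `Γ`. Let `u k, w k` be adjacent vertices of `T`, for
`k` in a finite set, and let `ψ₁, ψ₂` be square matrices over `ℤΓ` such that each `g` in the support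
of the entry of `ψ₁` at `(k, l)` sends `u l` to `u k` but not `w l` to `w k`, and each `g` in the
support of the entry of `ψ₂` at `(k, l)` sends `w l` to `w k` but not `u l` to `u k`. If the
`ε`-quadratic form `x ψ₁ x* + x z* + z ψ₂ z*` is nonsingular, then it is zero in `L^h_{2k}(ℤΓ)`. -/
theorem result (Γ : Type) [Group Γ] (V : Type) [MulAction Γ V] (T : SimpleGraph V) (hT : T.IsTree)
    (hadj : ∀ (g : Γ) (x y : V), T.Adj x y → T.Adj (g • x) (g • y))
    (hΓ : ∀ g : Γ, g * g = 1 → ∀ v : V, g • v = v)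
    (m : ℕ) (hm : ∀ (x y : V) (g : Γ), m ≤ T.dist x y → g • x = y → g • y = x →
      LocallyFree (MulAction.stabilizer Γ x ⊓ MulAction.stabilizer Γ y))
    (ε : ℤ) (hε : ε = 1 ∨ ε = -1)
    (κ : Type) [Fintype κ] [DecidableEq κ] (u w : κ → V) (huw : ∀ k, T.Adj (u k) (w k))
    (ψ₁ ψ₂ : Matrix κ κ (MonoidAlgebra ℤ Γ))
    (h₁ : ∀ k l g, (ψ₁ k l).coeff g ≠ 0 → g • u l = u k ∧ g • w l ≠ w k)
    (h₂ : ∀ k l g, (ψ₂ k l).coeff g ≠ 0 → g • w l = w k ∧ g • u l ≠ u k)
    (hns : IsUnit (symmetrization ε (unilateralForm ψ₁ ψ₂))) :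
    StablyHyperbolic ε (unilateralForm ψ₁ ψ₂) := by
  have hεε : ε * ε = 1 := by rcases hε with rfl | rfl <;> norm_num
  apply stably_of_zh
  let ψ : Bool → Matrix κ κ (MonoidAlgebra ℤ Γ) := fun b => if b then ψ₁ else ψ₂
  refine Pool.Agent.T9h15.RV.tree_mainH (T := T) hT hadj hΓ m ?_ hεε (fun k => (u k, w k)) huw ψ ?_ hns
  · intro x y g hxy h1 h2 F hF hfg
    have := hm x y g hxy h1 h2 F hF hfg
    exact Pool.Agent.T9h15.UN.KP.of_free F
  · intro c k l g hg
    cases c
    · obtain ⟨h3, h4⟩ := h₂ k l g hg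
      exact ⟨huw k, hadj g _ _ (huw l), h3.symm, fun h => h4 h.symm⟩
    · obtain ⟨h3, h4⟩ := h₁ k l g hg
      exact ⟨huw k, hadj g _ _ (huw l), h3.symm, fun h => h4 h.symm⟩

end Pool.Agent.Results.MP_98022b_gt.ReversibleUnilVanishing
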