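import Pool.Agent.T9h15.UN.Free
import Pool.Agent.TH6.CX.Fin

set_option autoImplicit false

/-! Unilateral forms over the integral group ring of a group acting on a tree are stably hyperbolic,
provided that the stabilisers of long paths are locally free and that there is no element of order
two: Cappell's groups `UNil_{2k}` vanish in this case. -/

namespace Pool.Agent.Results.MP_98022b_gt.UnilVanishing

open Matrix

section defs

variable {Γ : Type} [Group Γ]

/-- the adjoint (conjugate transpose) of a matrix over `ℤΓ`, for the involution `g ↦ g⁻¹` -/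
noncomputable def adjoint {κ μ : Type} (A : Matrix κ μ (MonoidAlgebra ℤ Γ)) :
    Matrix μ κ (MonoidAlgebra ℤ Γ) :=
  Matrix.of fun j i => MonoidAlgebra.mapDomain (fun g => g⁻¹) (A i j)

/-- the `ε`-symmetric form `λ = ψ + εψ*` of the `ε`-quadratic form `ψ` -/
noncomputable def symmetrization {κ : Type} (ε : ℤ) (ψ : Matrix κ κ (MonoidAlgebra ℤ Γ)) :
    Matrix κ κ (MonoidAlgebra ℤ Γ) := ψ + ε • adjoint ψ

/-- the square matrix `x` over `ℤΓ` is zero in the Whitehead group: stabilised by an identity block,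
it is `± g` on one diagonal entry times a product of commutators of invertible matrices -/
def ZeroInWh {κ : Type} [Fintype κ] [DecidableEq κ]
    (x : Matrix κ κ (MonoidAlgebra ℤ Γ)) : Prop :=
  ∃ (m : ℕ) (g : Γ) (ε : ℤˣ)
    (C : (Matrix (κ ⊕ Fin (m + 1)) (κ ⊕ Fin (m + 1)) (MonoidAlgebra ℤ Γ))ˣ),
    C ∈ commutator (Matrix (κ ⊕ Fin (m + 1)) (κ ⊕ Fin (m + 1)) (MonoidAlgebra ℤ Γ))ˣ ∧
    Matrix.fromBlocks x 0 0 (1 : Matrix (Fin (m + 1)) (Fin (m + 1)) (MonoidAlgebra ℤ Γ)) =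
      Matrix.diagonal (fun i : κ ⊕ Fin (m + 1) =>
          if i = Sum.inr (0 : Fin (m + 1)) then
            (MonoidAlgebra.single g ((ε : ℤ)) : MonoidAlgebra ℤ Γ) else 1) *
        (↑C : Matrix (κ ⊕ Fin (m + 1)) (κ ⊕ Fin (m + 1)) (MonoidAlgebra ℤ Γ))

/-- simple isometry of `ε`-quadratic forms (matrices modulo the matrices `χ - εχ*`) -/
def SimplyIsometric {κ : Type} [Fintype κ] [DecidableEq κ] (ε : ℤ)
    (ψ ψ' : Matrix κ κ (MonoidAlgebra ℤ Γ)) : Prop :=
  ∃ (E : (Matrix κ κ (MonoidAlgebra ℤ Γ))ˣ) (χ : Matrix κ κ (MonoidAlgebra ℤ Γ)),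
    ZeroInWh E.val ∧ E.val * ψ * adjoint E.val = ψ' + (χ - ε • adjoint χ)

/-- the sum of `n` hyperbolic planes -/
noncomputable def hyperbolic (Γ : Type) [Group Γ] (n : ℕ) :
    Matrix (Fin n ⊕ Fin n) (Fin n ⊕ Fin n) (MonoidAlgebra ℤ Γ) := fromBlocks 0 1 0 0

/-- the form `ψ` is zero in Wall's group `L^s_{2k}(ℤΓ)` with `ε = (-1)^k`: after adding hyperbolic
planes, it is simply isometric to a sum of hyperbolic planes -/
def StablyHyperbolic {κ : Type} [Fintype κ] [DecidableEq κ] (ε : ℤ)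
    (ψ : Matrix κ κ (MonoidAlgebra ℤ Γ)) : Prop :=
  ∃ (a b : ℕ) (e : κ ⊕ (Fin a ⊕ Fin a) ≃ Fin b ⊕ Fin b),
    SimplyIsometric ε (fromBlocks ψ 0 0 (hyperbolic Γ a)) ((hyperbolic Γ b).submatrix e e)

/-- every finitely generated subgroup of `H` is free -/
def LocallyFree (H : Subgroup Γ) : Prop :=
  ∀ F : Subgroup Γ, F ≤ H → F.FG → IsFreeGroup F

/-- the form `x ψ₁ x* + x z* + z ψ₂ z*` in the two vectors of variables `x` and `z` -/
noncomputable def unilateralForm {κ : Type} [DecidableEq κ] (ψ₁ ψ₂ : Matrix κ κ (MonoidAlgebra ℤ Γ)) :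
    Matrix (κ ⊕ κ) (κ ⊕ κ) (MonoidAlgebra ℤ Γ) := fromBlocks ψ₁ 1 0 ψ₂

end defs

section aux

open TH57.Thr TH6.LF TH6.CX Pool.Agent.R719.LF Pool.Agent.T9h15.UN

variable {Γ : Type} [Group Γ] {κ : Type} [Fintype κ] [DecidableEq κ]

theorem simple_of_iso {ε : ℤ} {ψ ψ' : Matrix κ κ (MonoidAlgebra ℤ Γ)} (h : Iso ε ψ ψ') :
    SimplyIsometric ε ψ ψ' := by
  obtain ⟨E, χ, h1, h2⟩ := h
  exact ⟨E, χ, TT_explicit E h1, h2⟩

theorem stably_of_z0 {ε : ℤ} {ψ : Matrix κ κ (MonoidAlgebra ℤ Γ)} (h : Z0 ε ψ) :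
    StablyHyperbolic ε ψ := by
  obtain ⟨a, b, e, h⟩ := h
  exact ⟨a, b, e, simple_of_iso h⟩

end aux

/-- Let `Γ` be a group without elements of order two, acting on a tree `T` such that the pointwise
stabilisers of all paths of length at least `m` are locally free (for `m = 1`: the stabilisers of
the edges are locally free). Let `u k, w k` be adjacent vertices of `T`, for `k` in a finite set,
and let `ψ₁, ψ₂` be square matrices over `ℤΓ` such that each `g` in the support of the entry of `ψ₁`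
at `(k, l)` sends `u l` to `u k` but not `w l` to `w k`, and each `g` in the support of the entry of
`ψ₂` at `(k, l)` sends `w l` to `w k` but not `u l` to `u k`. If the `ε`-quadratic form
`x ψ₁ x* + x z* + z ψ₂ z*` is nonsingular, then it is zero in `L^s_{2k}(ℤΓ)`. -/
theorem result (Γ : Type) [Group Γ] (hΓ : ∀ g : Γ, g * g = 1 → g = 1)
    (V : Type) [MulAction Γ V] (T : SimpleGraph V) (hT : T.IsTree)
    (hadj : ∀ (g : Γ) (x y : V), T.Adj x y → T.Adj (g • x) (g • y))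
    (m : ℕ) (hm : ∀ x y : V, m ≤ T.dist x y →
      LocallyFree (MulAction.stabilizer Γ x ⊓ MulAction.stabilizer Γ y))
    (ε : ℤ) (hε : ε = 1 ∨ ε = -1)
    (κ : Type) [Fintype κ] [DecidableEq κ] (u w : κ → V) (huw : ∀ k, T.Adj (u k) (w k))
    (ψ₁ ψ₂ : Matrix κ κ (MonoidAlgebra ℤ Γ))
    (h₁ : ∀ k l g, (ψ₁ k l).coeff g ≠ 0 → g • u l = u k ∧ g • w l ≠ w k)
    (h₂ : ∀ k l g, (ψ₂ k l).coeff g ≠ 0 → g • w l = w k ∧ g • u l ≠ u k)
    (hns : IsUnit (symmetrization ε (unilateralForm ψ₁ ψ₂))) :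
    StablyHyperbolic ε (unilateralForm ψ₁ ψ₂) := by
  have hεε : ε * ε = 1 := by rcases hε with rfl | rfl <;> norm_num
  apply stably_of_z0
  let ψ : Bool → Matrix κ κ (MonoidAlgebra ℤ Γ) := fun b => if b then ψ₁ else ψ₂
  refine Pool.Agent.T9h15.UN.tree_main (T := T) hT hadj ?_ m ?_ hεε (fun k => (u k, w k)) huw ψ ?_ hns
  · intro g hg
    apply hΓ
    nth_rewrite 1 [hg]
    exact inv_mul_cancel g
  · intro x y hxy F hF hfg
    have := hm x y hxy F hF hfg
    exact Pool.Agent.T9h15.UN.KP.of_free F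
  · intro c k l g hg
    cases c
    · obtain ⟨h3, h4⟩ := h₂ k l g hg
      exact ⟨huw k, hadj g _ _ (huw l), h3.symm, fun h => h4 h.symm⟩
    · obtain ⟨h3, h4⟩ := h₁ k l g hg
      exact ⟨huw k, hadj g _ _ (huw l), h3.symm, fun h => h4 h.symm⟩

end Pool.Agent.Results.MP_98022b_gt.UnilVanishing
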